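import Mathlib
import Pool.Agent.S05779

/-! The operator `x ↦ (x (i+1) + μ i * x i)` on the space of all two-sided complex sequences. -/

set_option autoImplicit false

namespace Pool.Agent.H655Z.Chain

open Filter Topology

abbrev X := ℤ → ℂ

/-- shift plus diagonal -/
noncomputable def T (μ : ℤ → ℂ) : X →L[ℂ] X :=
  ContinuousLinearMap.pi (fun i : ℤ =>
    (ContinuousLinearMap.proj (R := ℂ) (φ := fun _ : ℤ => ℂ) (i + 1)) +
      μ i • (ContinuousLinearMap.proj (R := ℂ) (φ := fun _ : ℤ => ℂ) i))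

theorem T_apply (μ : ℤ → ℂ) (x : X) (i : ℤ) : T μ x i = x (i + 1) + μ i * x i := by
  simp [T]

theorem T_pow_succ (μ : ℤ → ℂ) (n : ℕ) (x : X) (i : ℤ) :
    (T μ ^ (n + 1)) x i = (T μ ^ n) x (i + 1) + μ i * (T μ ^ n) x i := by
  rw [pow_succ', mul_apply_eq_comp, T_apply]

theorem dep (μ : ℤ → ℂ) (n : ℕ) (x y : X) : ∀ i : ℤ, (∀ j < i + n, x j = y j) →
    (T μ ^ n) x i - x (i + n) = (T μ ^ n) y i - y (i + n) := by
  induction n with
  | zero => intro i _; simp
  | succ n ih =>
    intro i h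
    rw [T_pow_succ, T_pow_succ]
    have h1 := ih (i + 1) (fun j hj => h j (by push_cast; omega))
    have h2 := ih i (fun j hj => h j (by push_cast; omega))
    have h3 := h (i + n) (by push_cast; omega)
    have e : i + ((n + 1 : ℕ) : ℤ) = i + 1 + n := by push_cast; ring
    rw [e]
    rw [h3] at h2
    have h4 : (T μ ^ n) x i = (T μ ^ n) y i := by linear_combination h2
    rw [h4]
    linear_combination h1

/-- triangular systems can be solved -/
theorem tri (F : ℤ → X → ℂ) (hF : ∀ j x y, (∀ i < j, x i = y i) → F j x = F j y) (c : ℤ)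
    (x0 : X) : ∃ x : X, (∀ i < c, x i = x0 i) ∧ ∀ j, c ≤ j → x j = F j x := by
  classical
  let y : ℕ → X := fun k => Nat.rec x0 (fun k z => Function.update z (c + k) (F (c + k) z)) k
  have ys : ∀ k, y (k + 1) = Function.update (y k) (c + k) (F (c + k) (y k)) := fun k => rfl
  have stab : ∀ k l : ℕ, ∀ i < c + k, y (k + l) i = y k i := by
    intro k l i hi
    induction l with
    | zero => rfl
    | succ l ih =>
      rw [← Nat.add_assoc, ys, Function.update_of_ne (by push_cast; omega), ih]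
  have key : ∀ (k : ℕ) (i : ℤ), i < c + k → y ((i - c).toNat + 1) i = y k i := by
    intro k i hi
    have h1 := stab k ((i - c).toNat + 1) i hi
    have h2 := stab ((i - c).toNat + 1) k i (by push_cast; omega)
    rw [← h1, ← h2, Nat.add_comm]
  refine ⟨fun i => y ((i - c).toNat + 1) i, ?_, ?_⟩
  · intro i hi
    exact key 0 i (by simpa using hi)
  · intro j hj
    have e : c + ((j - c).toNat : ℤ) = j := by omega
    show y ((j - c).toNat + 1) j = _
    rw [ys, e, Function.update_self]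
    apply hF
    intro i hi
    exact (key _ i (by omega)).symm

theorem solve (μ : ℤ → ℂ) (τ : ℤ → ℕ) (g : ℤ → ℂ) (c : ℤ) (x0 : X) :
    ∃ x : X, (∀ i < c, x i = x0 i) ∧ ∀ j, c ≤ j → (T μ ^ τ j) x (j - τ j) = g j := by
  obtain ⟨x, h1, h2⟩ := tri (fun j x => g j - ((T μ ^ τ j) x (j - τ j) - x j)) (by
    intro j x y h
    have := dep μ (τ j) x y (j - τ j) (fun i hi => h i (by omega))
    rw [sub_add_cancel] at this
    simp only [this]) c x0
  refine ⟨x, h1, fun j hj => ?_⟩
  have := h2 j hj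
  linear_combination this

/-- open sets contain cylinders -/
theorem cyl {U : Set X} (hU : IsOpen U) {u : X} (hu : u ∈ U) :
    ∃ K : ℕ, ∀ y : X, (∀ i : ℤ, -(K : ℤ) ≤ i → i ≤ K → y i = u i) → y ∈ U := by
  obtain ⟨I, w, h1, h2⟩ := isOpen_pi_iff.1 hU u hu
  obtain ⟨K, hK⟩ : ∃ K : ℕ, ∀ i ∈ I, i.natAbs ≤ K :=
    ⟨I.sup Int.natAbs, fun i hi => Finset.le_sup (f := Int.natAbs) hi⟩
  refine ⟨K, fun y hy => h2 ?_⟩
  intro i hi
  have := hK i hi
  rw [hy i (by omega) (by omega)]
  exact (h1 i hi).2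

theorem mixing (μ : ℤ → ℂ) (U V : Set X) (hU : IsOpen U) (hV : IsOpen V) (hU' : U.Nonempty)
    (hV' : V.Nonempty) :
    ∃ N : ℕ, ∀ n : ℕ, N ≤ n → ((⇑(T μ ^ n)) ⁻¹' V ∩ U).Nonempty := by
  obtain ⟨u, hu⟩ := hU'
  obtain ⟨v, hv⟩ := hV'
  obtain ⟨K, hK⟩ := cyl hU hu
  obtain ⟨L, hL⟩ := cyl hV hv
  refine ⟨K + L + 1, fun n hn => ?_⟩
  obtain ⟨x, h1, h2⟩ := solve μ (fun _ => n) (fun j => v (j - n)) (K + 1) u
  refine ⟨x, hL _ ?_, hK _ ?_⟩
  · intro i hi _
    have := h2 (i + n) (by omega)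
    simpa using this
  · intro i _ hi
    exact h1 i (by omega)

open Pool.Agent.S05779 in
theorem J_good {i n l : ℕ} (hG : Good i n) (hl : l < R i) :
    J (n + l) = i ∧ (n + l) % P i = l := by
  obtain ⟨hd, hle, hfar⟩ := hG
  have key : ∀ j, i < j → act j (n + l) → n + R j ≤ (n + l) - (n + l) % P j := by
    intro j hij ⟨h1, h2⟩
    have hdvd : P j ∣ (n + l) - (n + l) % P j := Nat.dvd_sub_mod _
    have hge : P j ≤ (n + l) - (n + l) % P j := by
      apply Nat.le_of_dvd _ hdvd
      have := Nat.mod_lt (n + l) (P_pos j)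
      have : (n + l) % P j < n + l := by omega
      omega
    rcases hfar j hij _ hdvd hge with h | h
    · exact h
    · exfalso
      omega
  have hlP : l < P i := by have := R_le i; omega
  have hmod : (n + l) % P i = l := by
    rw [Nat.add_mod, Nat.mod_eq_zero_of_dvd hd, zero_add, Nat.mod_mod, Nat.mod_eq_of_lt hlP]
  have hact : act i (n + l) := ⟨by omega, by rw [hmod]; exact hl⟩
  refine ⟨?_, hmod⟩
  unfold J
  rw [Nat.findGreatest_eq_iff]
  refine ⟨?_, fun _ => hact, ?_⟩
  · have := j_lt_P i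
    omega
  · intro j hij _ hact'
    have h1 := key j hij hact'
    have h2 := hact'.2
    have h3 : R i ≤ R j := by
      unfold R
      have : i + 1 ≤ j + 1 := by omega
      gcongr
    omega

open Pool.Agent.S05779 in
theorem fhc (μ : ℤ → ℂ) : ∃ x : ℤ → ℂ, ∀ U : Set (ℤ → ℂ), IsOpen U → U.Nonempty →
    ∃ δ : ℝ, 0 < δ ∧ ∃ N₀ : ℕ, ∀ N : ℕ, N₀ ≤ N →
      δ * (N : ℝ) ≤ (Nat.card {n : ℕ // n < N ∧ (Chain.T μ ^ n) x ∈ U} : ℝ) := by
  classical
  obtain ⟨d, hd⟩ := TopologicalSpace.exists_dense_seq (ℤ → ℂ)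
  obtain ⟨x, -, hx⟩ := solve μ
    (fun j => j.toNat - j.toNat % P (J j.toNat) + J j.toNat)
    (fun j => d (Nat.unpair (J j.toNat)).1 (((j.toNat % P (J j.toNat) : ℕ) : ℤ) - (J j.toNat : ℤ)))
    0 0
  refine ⟨x, fun U hU hne => ?_⟩
  obtain ⟨k, hk⟩ := hd.exists_mem_open hU hne
  obtain ⟨K, hK⟩ := cyl hU hk
  set i := Nat.pair k K with hi
  have hKi : K ≤ i := Nat.right_le_pair _ _
  have hgood : ∀ n, Good i n → (Chain.T μ ^ (n + i)) x ∈ U := by
    intro n hn
    apply hK
    intro s hs1 hs2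
    have hl : (s + i).toNat < R i := by
      have : 2 * i + 1 ≤ R i := by unfold R; nlinarith
      omega
    obtain ⟨h1, h2⟩ := J_good hn hl
    have h3 := hx ((n + (s + i).toNat : ℕ) : ℤ) (by omega)
    simp only [Int.toNat_natCast, h1, h2] at h3
    have e1 : n + (s + i).toNat - (s + i).toNat + i = n + i := by omega
    have e2 : ((n + (s + i).toNat : ℕ) : ℤ) - ((n + i : ℕ) : ℤ) = s := by omega
    have e3 : (((s + i).toNat : ℕ) : ℤ) - (i : ℤ) = s := by omega
    rw [e1, e2, e3, hi, Nat.unpair_pair] at h3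
    exact h3
  have hP := P_pos i
  have hP' : (0 : ℝ) < P i := by exact_mod_cast hP
  refine ⟨1 / (16 * P i), by positivity, 16 * (4 * P i + i + 1), fun N hN => ?_⟩
  have hsub : (((GoodSet i (N / 3)).image (fun n => n + i) : Finset ℕ) : Set ℕ) ⊆
      {n : ℕ | n < N ∧ (Chain.T μ ^ n) x ∈ U} := by
    intro m hm
    obtain ⟨n, hn, rfl⟩ := Finset.mem_image.1 (Finset.mem_coe.1 hm)
    unfold GoodSet at hn
    rw [Finset.mem_filter, Finset.mem_Ico] at hn
    exact ⟨by omega, hgood n hn.2⟩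
  have hfin : {n : ℕ | n < N ∧ (Chain.T μ ^ n) x ∈ U}.Finite :=
    (Set.finite_lt_nat N).subset (fun n hn => hn.1)
  have hcard := Set.ncard_le_ncard hsub hfin
  rw [Set.ncard_coe_finset, Finset.card_image_of_injective _ (add_left_injective i)] at hcard
  have h1 := card_GoodSet i (N / 3) (by omega)
  have h2 : ((GoodSet i (N / 3)).card : ℝ) ≤
      (Nat.card {n : ℕ // n < N ∧ (Chain.T μ ^ n) x ∈ U} : ℝ) := by
    have : Nat.card {n : ℕ // n < N ∧ (Chain.T μ ^ n) x ∈ U} =
      {n : ℕ | n < N ∧ (Chain.T μ ^ n) x ∈ U}.ncard := rfl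
    rw [this]
    exact_mod_cast hcard
  refine le_trans ?_ h2
  refine le_trans ?_ h1
  have h3 : (N : ℝ) ≤ 4 * ((N / 3 : ℕ) : ℝ) := by
    have : N ≤ 4 * (N / 3) := by omega
    exact_mod_cast this
  have h4 : (4 : ℝ) * P i ≤ ((N / 3 : ℕ) : ℝ) := by
    have : 4 * P i ≤ N / 3 := by omega
    exact_mod_cast this
  rw [div_mul_eq_mul_div, one_mul, le_sub_iff_add_le, div_add' _ _ _ (by positivity),
    div_le_div_iff₀ (by positivity) (by positivity)]
  nlinarith

/-- eigenvectors -/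
theorem exists_eigen (μ : ℤ → ℂ) (w : ℂ) (hw : ∀ i, μ i ≠ w) :
    ∃ e : X, (∀ i, e i ≠ 0) ∧ T μ e = w • e := by
  let e : X := fun i => match i with
    | Int.ofNat n => ∏ l ∈ Finset.range n, (w - μ l)
    | Int.negSucc n => (∏ l ∈ Finset.range (n + 1), (w - μ (Int.negSucc l)))⁻¹
  have hne : ∀ i, w - μ i ≠ 0 := fun i => sub_ne_zero.2 (hw i).symm
  refine ⟨e, ?_, ?_⟩
  · intro i
    cases i with
    | ofNat n => exact Finset.prod_ne_zero_iff.2 (fun l _ => hne _)
    | negSucc n => exact inv_ne_zero (Finset.prod_ne_zero_iff.2 (fun l _ => hne _))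
  · funext i
    rw [T_apply, Pi.smul_apply, smul_eq_mul]
    have : e (i + 1) = (w - μ i) * e i := by
      cases i with
      | ofNat n =>
        show (∏ l ∈ Finset.range (n + 1), (w - μ l)) = (w - μ n) * ∏ l ∈ Finset.range n, (w - μ l)
        rw [Finset.prod_range_succ, mul_comm]
      | negSucc n =>
        cases n with
        | zero =>
          show (∏ l ∈ Finset.range 0, (w - μ l)) = (w - μ (Int.negSucc 0)) *
            (∏ l ∈ Finset.range (0 + 1), (w - μ (Int.negSucc l)))⁻¹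
          simp [hne]
        | succ n =>
          show (∏ l ∈ Finset.range (n + 1), (w - μ (Int.negSucc l)))⁻¹ =
            (w - μ (Int.negSucc (n + 1))) *
            (∏ l ∈ Finset.range (n + 1 + 1), (w - μ (Int.negSucc l)))⁻¹
          rw [Finset.prod_range_succ _ (n + 1), mul_inv]
          have := hne (Int.negSucc (n + 1))
          field_simp
    rw [this]
    ring

theorem window (μ : ℤ → ℂ) (w : ℕ → ℂ) (e : ℕ → X) (he : ∀ l i, e l i ≠ 0)
    (hT : ∀ l, T μ (e l) = w l • e l) (c : ℤ) (k : ℕ) (hw : ∀ a < k, ∀ b < k, w a = w b → a = b) :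
    ∀ u : X, ∃ a : ℕ → ℂ, ∀ j : ℕ, j < k → (∑ l ∈ Finset.range k, a l • e l) (c + j) = u (c + j) := by
  induction k with
  | zero => intro u; exact ⟨0, fun j hj => by omega⟩
  | succ k ih =>
    intro u
    obtain ⟨a, ha⟩ := ih (fun a ha b hb => hw a (by omega) b (by omega)) (T μ u - w k • u)
    have hne : ∀ l < k, w l - w k ≠ 0 := by
      intro l hl h
      have := hw l (by omega) k (by omega) (sub_eq_zero.1 h)
      omega
    set x0 : X := ∑ l ∈ Finset.range k, (a l / (w l - w k)) • e l with hx0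
    refine ⟨fun l => if l < k then a l / (w l - w k) else (u c - x0 c) / e k c, ?_⟩
    set x : X := ∑ l ∈ Finset.range (k + 1),
      (if l < k then a l / (w l - w k) else (u c - x0 c) / e k c) • e l with hx
    have hxx : x = x0 + ((u c - x0 c) / e k c) • e k := by
      rw [hx, Finset.sum_range_succ, if_neg (lt_irrefl k), hx0]
      congr 1
      apply Finset.sum_congr rfl
      intro l hl
      rw [if_pos (Finset.mem_range.1 hl)]
    have hTx : T μ x - w k • x = ∑ l ∈ Finset.range k, a l • e l := by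
      have h1 : T μ x0 - w k • x0 = ∑ l ∈ Finset.range k, a l • e l := by
        rw [hx0, map_sum, Finset.smul_sum, ← Finset.sum_sub_distrib]
        apply Finset.sum_congr rfl
        intro l hl
        rw [map_smul, hT, smul_smul, smul_smul, ← sub_smul]
        congr 1
        have := hne l (Finset.mem_range.1 hl)
        field_simp
      rw [hxx, map_add, map_smul, hT, smul_add, ← h1, smul_comm (w k)]
      abel
    intro j
    induction j with
    | zero =>
      intro _
      rw [hxx]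
      have := he k c
      simp only [Nat.cast_zero, add_zero, Pi.add_apply, Pi.smul_apply, smul_eq_mul]
      field_simp
      ring
    | succ j ihj =>
      intro hj
      have h1 := ihj (by omega)
      have h2 := ha j (by omega)
      rw [← hTx] at h2
      simp only [Pi.sub_apply, Pi.smul_apply, smul_eq_mul, T_apply, h1] at h2
      have e1 : c + ((j + 1 : ℕ) : ℤ) = c + j + 1 := by push_cast; ring
      rw [e1]
      linear_combination h2

theorem periodic_dense (μ : ℤ → ℂ) (hμ : ∀ i, ∀ N : ℕ, 0 < N → μ i ^ N ≠ 1) :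
    Dense {x : X | ∃ n : ℕ, 0 < n ∧ (T μ ^ n) x = x} := by
  rw [dense_iff_inter_open]
  rintro U hU ⟨u, hu⟩
  obtain ⟨K, hK⟩ := cyl hU hu
  have hprim := Complex.isPrimitiveRoot_exp (2 * K + 1) (by omega)
  set ζ := Complex.exp (2 * Real.pi * Complex.I / ((2 * K + 1 : ℕ) : ℂ)) with hζ
  have hpow : ∀ l : ℕ, (ζ ^ l) ^ (2 * K + 1) = 1 := by
    intro l
    rw [← pow_mul, mul_comm, pow_mul, hprim.pow_eq_one, one_pow]
  have hex : ∀ l : ℕ, ∃ e : X, (∀ i, e i ≠ 0) ∧ T μ e = (ζ ^ l) • e := by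
    intro l
    apply exists_eigen
    intro i h
    exact hμ i (2 * K + 1) (by omega) (by rw [h, hpow])
  choose e he hT using hex
  obtain ⟨a, ha⟩ := window μ (fun l => ζ ^ l) e he hT (-(K : ℤ)) (2 * K + 1)
    (fun a ha b hb h => hprim.pow_inj ha hb h) u
  refine ⟨∑ l ∈ Finset.range (2 * K + 1), a l • e l, hK _ ?_, 2 * K + 1, by omega, ?_⟩
  · intro i h1 h2
    have := ha (i + K).toNat (by omega)
    have e1 : -(K : ℤ) + ((i + K).toNat : ℤ) = i := by omega
    rwa [e1] at this
  · rw [map_sum]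
    apply Finset.sum_congr rfl
    intro l _
    have h1 : ∀ n : ℕ, (T μ ^ n) (e l) = (ζ ^ l) ^ n • e l := by
      intro n
      induction n with
      | zero => simp
      | succ n ih =>
        rw [pow_succ', mul_apply_eq_comp, ih, map_smul, hT, smul_smul, ← pow_succ]
    rw [map_smul, h1, hpow, one_smul]

end Pool.Agent.H655Z.Chain
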