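import Mathlib

/-! A Haight–Ruzsa type construction on the real line. -/

set_option autoImplicit false

namespace Pool.Agent.H655Z.Haight

open Finset

abbrev Cfg := (Fin 4 → ℝ) × (Fin 4 → Bool)

/-- a sum of four elements of the set `{φ x, φ x + x}` -/
noncomputable def sm (φ : ℝ → ℝ) (p : Cfg) : ℝ :=
  ∑ i, (φ (p.1 i) + if p.2 i then p.1 i else 0)

def Good (F : Set Cfg) : Prop :=
  ∀ φ : ℝ → ℝ, (∃ C, ∀ x, |φ x| ≤ C) → ∀ ε > 0, ∀ t : ℝ, ∀ r > 0,
    ∃ ψ : ℝ → ℝ, (∀ x, |ψ x - φ x| ≤ ε) ∧ ∃ t' : ℝ, ∃ r' > 0, |t' - t| + r' ≤ r ∧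
      ∀ p ∈ F, r' ≤ |sm ψ p - t'|

theorem sm_close {φ ψ : ℝ → ℝ} {p q : Cfg} {η : ℝ} (he : p.2 = q.2)
    (h1 : ∀ i, |ψ (p.1 i) - φ (q.1 i)| ≤ η) (h2 : ∀ i, |p.1 i - q.1 i| ≤ η) :
    |sm ψ p - sm φ q| ≤ 8 * η := by
  unfold sm
  rw [← sum_sub_distrib]
  refine (abs_sum_le_sum_abs _ _).trans ?_
  have : ∀ i ∈ (univ : Finset (Fin 4)), |(ψ (p.1 i) + if p.2 i then p.1 i else 0) -
      (φ (q.1 i) + if q.2 i then q.1 i else 0)| ≤ 2 * η := by
    intro i _
    have a1 := abs_le.1 (h1 i)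
    have a2 := abs_le.1 (h2 i)
    rw [he]
    split_ifs
    · rw [abs_le]; constructor <;> linarith [a1.1, a1.2, a2.1, a2.2]
    · have : 0 ≤ η := (abs_nonneg _).trans (h2 i)
      rw [abs_le]; constructor <;> linarith [a1.1, a1.2]
  refine (sum_le_sum this).trans ?_
  simp only [sum_const, card_univ, Fintype.card_fin, nsmul_eq_mul]
  push_cast
  linarith

theorem bdd_of_close {φ ψ : ℝ → ℝ} {ε : ℝ} (h : ∃ C, ∀ x, |φ x| ≤ C)
    (h1 : ∀ x, |ψ x - φ x| ≤ ε) : ∃ C, ∀ x, |ψ x| ≤ C := by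
  obtain ⟨C, hC⟩ := h
  refine ⟨C + ε, fun x => ?_⟩
  have a1 := abs_le.1 (h1 x)
  have a2 := abs_le.1 (hC x)
  rw [abs_le]; constructor <;> linarith [a1.1, a1.2, a2.1, a2.2]

theorem good_empty : Good ∅ := by
  intro φ _ ε hε t r hr
  exact ⟨φ, fun x => by simpa using hε.le, t, r, hr, by simp, fun p hp => hp.elim⟩

theorem good_union {F G : Set Cfg} (hF : Good F) (hG : Good G) : Good (F ∪ G) := by
  intro φ hφ ε hε t r hr
  obtain ⟨ψ1, h1, t1, r1, hr1, h2, h3⟩ := hF φ hφ (ε / 2) (by positivity) t r hr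
  obtain ⟨ψ2, g1, t2, r2, hr2, g2, g3⟩ := hG ψ1 (bdd_of_close hφ h1) (min (ε / 2) (r1 / 32))
    (by positivity) t1 (r1 / 2) (by positivity)
  refine ⟨ψ2, fun x => ?_, t2, r2, hr2, ?_, ?_⟩
  · have a1 := abs_le.1 (h1 x)
    have a2 := abs_le.1 ((g1 x).trans (min_le_left _ _))
    rw [abs_le]; constructor <;> linarith [a1.1, a1.2, a2.1, a2.2]
  · have := abs_sub_le t2 t1 t
    linarith
  · rintro p (hp | hp)
    · have a1 := h3 p hp
      have a2 : |sm ψ2 p - sm ψ1 p| ≤ 8 * (r1 / 32) :=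
        sm_close rfl (fun i => (g1 _).trans (min_le_right _ _)) (fun i => by simp; positivity)
      have a3 := abs_sub_le (sm ψ1 p) (sm ψ2 p) t1
      have a4 := abs_sub_le (sm ψ2 p) t2 t1
      rw [abs_sub_comm] at a2
      linarith
    · exact g3 p hp

theorem good_biUnion {κ : Type} (s : Finset κ) (G : κ → Set Cfg) (h : ∀ j, Good (G j)) :
    Good (⋃ j ∈ s, G j) := by
  classical
  induction s using Finset.induction_on with
  | empty => simpa using good_empty
  | insert a s _ ih =>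
    rw [Finset.set_biUnion_insert]
    exact good_union (h a) ih

theorem good_single {κ : Type} (c : ℝ → κ) (γ : Fin 4 → κ) (e : Fin 4 → Bool) :
    Good {p | p.2 = e ∧ (∀ i, c (p.1 i) = γ i) ∧ ∀ i l, γ i = γ l → p.1 i = p.1 l} := by
  classical
  intro φ _ ε hε t r hr
  set θ := min ε r with hθ
  have hθ0 : 0 < θ := by positivity
  let n : κ → ℕ := fun a => (univ.filter (fun i => γ i = a)).card
  let v : κ → ℕ := fun a => ((univ.filter (fun i => γ i = a)).filter (fun i => e i)).card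
  let ψ : ℝ → ℝ := fun x => if n (c x) = 0 then φ x else
    (θ * ⌊(n (c x) * φ x + v (c x) * x) / θ⌋ - v (c x) * x) / n (c x)
  refine ⟨ψ, fun x => ?_, θ * (⌊t / θ⌋ + 1 / 2), θ / 2, by positivity, ?_, ?_⟩
  · simp only [ψ]
    split_ifs with h
    · simpa using hε.le
    · have hn : (1 : ℝ) ≤ n (c x) := by exact_mod_cast Nat.one_le_iff_ne_zero.2 h
      set y := (n (c x) : ℝ) * φ x + v (c x) * x with hy
      have a1 := Int.floor_le (y / θ)
      have a2 := Int.lt_floor_add_one (y / θ)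
      rw [le_div_iff₀ hθ0] at a1
      rw [div_lt_iff₀ hθ0] at a2
      have e1 : (θ * ⌊y / θ⌋ - v (c x) * x) / n (c x) - φ x = (θ * ⌊y / θ⌋ - y) / n (c x) := by
        rw [hy]
        field_simp
        ring
      rw [e1, abs_div, abs_of_pos (by linarith : (0 : ℝ) < n (c x)), div_le_iff₀ (by linarith)]
      have a3 : |θ * ⌊y / θ⌋ - y| ≤ θ := by
        rw [abs_le]; constructor <;> linarith
      have a4 : θ ≤ ε := min_le_left _ _
      nlinarith
  · have a1 := Int.floor_le (t / θ)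
    have a2 := Int.lt_floor_add_one (t / θ)
    rw [le_div_iff₀ hθ0] at a1
    rw [div_lt_iff₀ hθ0] at a2
    have a3 : |θ * (⌊t / θ⌋ + 1 / 2) - t| ≤ θ / 2 := by
      rw [abs_le]; constructor <;> linarith
    have a4 : θ ≤ r := min_le_right _ _
    linarith
  · rintro ⟨x, e'⟩ ⟨he, hc, hinj⟩
    simp only at he hc hinj
    subst he
    have hmem : sm ψ (x, e') ∈ AddSubgroup.zmultiples θ := by
      unfold sm
      simp only
      rw [← sum_fiberwise_of_maps_to (s := univ) (t := univ.image γ) (g := γ)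
        (fun i _ => mem_image_of_mem γ (mem_univ i))]
      apply AddSubgroup.sum_mem
      intro a ha
      obtain ⟨i0, -, rfl⟩ := mem_image.1 ha
      have hn : n (γ i0) ≠ 0 := by
        apply Finset.card_ne_zero.2
        exact ⟨i0, by simp⟩
      have e1 : ∑ i ∈ univ.filter (fun i => γ i = γ i0), (ψ (x i) + if e' i then x i else 0) =
          n (γ i0) * ψ (x i0) + v (γ i0) * x i0 := by
        have e2 : ∀ i ∈ univ.filter (fun i => γ i = γ i0),
            (ψ (x i) + if e' i then x i else 0) = (ψ (x i0) + if e' i then x i0 else 0) := by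
          intro i hi
          rw [hinj i i0 (mem_filter.1 hi).2]
        rw [sum_congr rfl e2, sum_add_distrib, sum_const, nsmul_eq_mul, ← sum_filter, sum_const,
          nsmul_eq_mul]
      rw [e1]
      have hn' : (n (γ i0) : ℝ) ≠ 0 := by exact_mod_cast hn
      have e3 : n (γ i0) * ψ (x i0) + v (γ i0) * x i0 =
          (⌊(n (γ i0) * φ (x i0) + v (γ i0) * x i0) / θ⌋ : ℤ) • θ := by
        simp only [ψ, hc i0, if_neg hn, zsmul_eq_mul]
        field_simp
        ring
      rw [e3]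
      exact AddSubgroup.zsmul_mem_zmultiples _ _
    obtain ⟨m, hm⟩ := AddSubgroup.mem_zmultiples_iff.1 hmem
    rw [← hm, zsmul_eq_mul]
    have e4 : (m : ℝ) * θ - θ * (⌊t / θ⌋ + 1 / 2) = θ * (((m - ⌊t / θ⌋ : ℤ) : ℝ) - 1 / 2) := by
      push_cast
      ring
    rw [e4, abs_mul, abs_of_pos hθ0]
    have e5 : (1 : ℝ) / 2 ≤ |((m - ⌊t / θ⌋ : ℤ) : ℝ) - 1 / 2| := by
      rcases le_or_gt (m - ⌊t / θ⌋) 0 with h | h
      · have : ((m - ⌊t / θ⌋ : ℤ) : ℝ) ≤ 0 := by exact_mod_cast h
        rw [abs_of_nonpos (by linarith)]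
        linarith
      · have : (1 : ℝ) ≤ ((m - ⌊t / θ⌋ : ℤ) : ℝ) := by exact_mod_cast h
        rw [abs_of_nonneg (by linarith)]
        linarith
    nlinarith

open Classical in
theorem good_level (m : ℕ) :
    Good {p | (∀ i, p.1 i ∈ Set.Icc (0 : ℝ) 1) ∧ (univ.image p.1).card ≤ m} := by
  induction m with
  | zero =>
    have : {p : Cfg | (∀ i, p.1 i ∈ Set.Icc (0 : ℝ) 1) ∧ (univ.image p.1).card ≤ 0} = ∅ := by
      ext p
      simp only [Set.mem_ofPred_eq, Set.mem_empty_iff_false, iff_false, not_and, not_le]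
      intro _
      exact card_pos.2 ⟨p.1 0, by simp⟩
    rw [this]
    exact good_empty
  | succ m ih =>
    intro φ hφ ε hε t r hr
    obtain ⟨ψ1, h1, t1, r1, hr1, h2, h3⟩ := ih φ hφ (ε / 2) (by positivity) t r hr
    obtain ⟨C, hC⟩ := bdd_of_close hφ h1
    set η := r1 / 100 with hη
    have hη0 : 0 < η := by positivity
    let c : ℝ → ℤ × ℤ := fun x => (⌊x / η⌋, ⌊ψ1 x / η⌋)
    let K : Finset (ℤ × ℤ) := Icc 0 ⌊1 / η⌋ ×ˢ Icc ⌊-C / η⌋ ⌊C / η⌋
    have hK : ∀ x ∈ Set.Icc (0 : ℝ) 1, c x ∈ K := by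
      intro x hx
      have a1 := abs_le.1 (hC x)
      simp only [c, K, mem_product, mem_Icc]
      refine ⟨⟨Int.floor_nonneg.2 (div_nonneg hx.1 hη0.le), Int.floor_mono ?_⟩,
        Int.floor_mono ?_, Int.floor_mono ?_⟩
      · gcongr
        exact hx.2
      · gcongr
        exact a1.1
      · gcongr
        exact a1.2
    have hG := good_biUnion ((Fintype.piFinset fun _ : Fin 4 => K) ×ˢ (univ : Finset (Fin 4 → Bool)))
      (fun j => {p : Cfg | p.2 = j.2 ∧ (∀ i, c (p.1 i) = j.1 i) ∧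
        ∀ i l, j.1 i = j.1 l → p.1 i = p.1 l}) (fun j => good_single c j.1 j.2)
    obtain ⟨ψ2, g1, t2, r2, hr2, g2, g3⟩ := hG ψ1 ⟨C, hC⟩ (min (ε / 2) η)
      (by positivity) t1 (r1 / 2) (by positivity)
    refine ⟨ψ2, fun x => ?_, t2, r2, hr2, ?_, ?_⟩
    · have a1 := abs_le.1 (h1 x)
      have a2 := abs_le.1 ((g1 x).trans (min_le_left _ _))
      rw [abs_le]; constructor <;> linarith [a1.1, a1.2, a2.1, a2.2]
    · have := abs_sub_le t2 t1 t
      linarith
    · rintro ⟨x, e⟩ ⟨hx, hcard⟩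
      simp only at hx hcard
      by_cases hinj : ∀ i l, c (x i) = c (x l) → x i = x l
      · apply g3
        simp only [Set.mem_iUnion]
        refine ⟨(fun i => c (x i), e), ?_, rfl, fun i => rfl, hinj⟩
        simp only [mem_product, Fintype.mem_piFinset, mem_univ, and_true]
        exact fun i => hK _ (hx i)
      · let ρ : ℤ × ℤ → ℝ := fun a => if h : ∃ l, c (x l) = a then x h.choose else 0
        have hρ : ∀ i, ∃ l, ρ (c (x i)) = x l ∧ c (x l) = c (x i) := by
          intro i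
          have h : ∃ l, c (x l) = c (x i) := ⟨i, rfl⟩
          exact ⟨h.choose, dif_pos h, h.choose_spec⟩
        have hmem : r1 ≤ |sm ψ1 (fun i => ρ (c (x i)), e) - t1| := by
          apply h3
          refine ⟨fun i => ?_, ?_⟩
          · obtain ⟨l, hl, -⟩ := hρ i
            simp only [hl]
            exact hx l
          · have e1 : univ.image (fun i => ρ (c (x i))) = ((univ.image x).image c).image ρ := by
              rw [image_image, image_image]
              rfl
            simp only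
            rw [e1]
            have a1 : (((univ.image x).image c).image ρ).card ≤ ((univ.image x).image c).card :=
              card_image_le
            have a2 : ((univ.image x).image c).card ≤ (univ.image x).card := card_image_le
            have a3 : ((univ.image x).image c).card ≠ (univ.image x).card := by
              intro h
              apply hinj
              intro i l hil
              exact (card_image_iff.1 h) (by simp) (by simp) hil
            omega
        have a2 : |sm ψ2 (x, e) - sm ψ1 (fun i => ρ (c (x i)), e)| ≤ 8 * (2 * η) := by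
          have key : ∀ a b : ℝ, ⌊a / η⌋ = ⌊b / η⌋ → |a - b| ≤ η := by
            intro a b h
            have := Int.abs_sub_lt_one_of_floor_eq_floor h
            rw [← sub_div, abs_div, abs_of_pos hη0, div_lt_one hη0] at this
            exact this.le
          refine sm_close rfl (fun i => ?_) (fun i => ?_)
          · obtain ⟨l, hl, hl'⟩ := hρ i
            simp only [hl]
            have b1 := abs_le.1 ((g1 (x i)).trans (min_le_right _ _))
            have b2 := abs_le.1 (key _ _ (congrArg Prod.snd hl'))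
            rw [abs_le]; constructor <;> linarith [b1.1, b1.2, b2.1, b2.2]
          · obtain ⟨l, hl, hl'⟩ := hρ i
            simp only [hl]
            have b2 := abs_le.1 (key _ _ (congrArg Prod.fst hl'))
            rw [abs_le]; constructor <;> linarith [b2.1, b2.2]
        have a3 := abs_sub_le (sm ψ1 (fun i => ρ (c (x i)), e)) (sm ψ2 (x, e)) t1
        have a4 := abs_sub_le (sm ψ2 (x, e)) t2 t1
        rw [abs_sub_comm] at a2
        linarith

theorem good_all : Good {p | ∀ i, p.1 i ∈ Set.Icc (0 : ℝ) 1} := by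
  classical
  have h := good_level 4
  have e : {p : Cfg | (∀ i, p.1 i ∈ Set.Icc (0 : ℝ) 1) ∧ (univ.image p.1).card ≤ 4} =
      {p | ∀ i, p.1 i ∈ Set.Icc (0 : ℝ) 1} := by
    ext p
    simp only [Set.mem_ofPred_eq, and_iff_left_iff_imp]
    intro _
    exact card_image_le.trans (by simp)
  convert h using 1
  rw [← e]

theorem exists_phi : ∃ φ : ℝ → ℝ, (∃ C, ∀ x, |φ x| ≤ C) ∧ ∀ t : ℝ, ∀ r > 0,
    ∃ t' : ℝ, ∃ r' > 0, |t' - t| + r' ≤ r ∧
      ∀ p : Cfg, (∀ i, p.1 i ∈ Set.Icc (0 : ℝ) 1) → r' ≤ |sm φ p - t'| := by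
  let E := lp (fun _ : ℝ => ℝ) ⊤
  have happ : ∀ (f : E) (x : ℝ), |f x| ≤ ‖f‖ := fun f x =>
    lp.norm_apply_le_norm ENNReal.top_ne_zero f x
  let U : ℚ × ℕ → Set E := fun j => {f | ∃ t' : ℝ, ∃ r' > 0, |t' - j.1| + r' ≤ 1 / ((j.2 : ℝ) + 1) ∧
      ∀ p : Cfg, (∀ i, p.1 i ∈ Set.Icc (0 : ℝ) 1) → r' ≤ |sm f p - t'|}
  have hopen : ∀ j, IsOpen (U j) := by
    intro j
    rw [Metric.isOpen_iff]
    rintro f ⟨t', r', hr', h1, h2⟩
    refine ⟨r' / 16, by positivity, fun g hg => ⟨t', r' / 2, by positivity, by linarith, ?_⟩⟩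
    intro p hp
    have a1 := h2 p hp
    have a2 : |sm g p - sm f p| ≤ 8 * (r' / 16) := by
      refine sm_close rfl (fun i => ?_) (fun i => by simp; positivity)
      rw [Metric.mem_ball, dist_eq_norm] at hg
      exact (happ (g - f) (p.1 i)).trans hg.le
    have a3 := abs_sub_le (sm f p) (sm g p) t'
    rw [abs_sub_comm] at a2
    linarith
  have hdense : ∀ j, Dense (U j) := by
    intro j
    rw [Metric.dense_iff]
    intro f ε hε
    obtain ⟨ψ, h1, h2⟩ := good_all f ⟨‖f‖, happ f⟩ (ε / 2) (by positivity) j.1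
      (1 / ((j.2 : ℝ) + 1)) (by positivity)
    obtain ⟨C, hC⟩ := bdd_of_close ⟨‖f‖, happ f⟩ h1
    have hm : Memℓp ψ ⊤ := memℓp_infty ⟨C, by rintro _ ⟨x, rfl⟩; exact hC x⟩
    refine ⟨⟨ψ, hm⟩, ?_, h2⟩
    rw [Metric.mem_ball, dist_eq_norm]
    refine lt_of_le_of_lt (lp.norm_le_of_forall_le (C := ε / 2) (by positivity) ?_) (by linarith)
    intro x
    exact h1 x
  obtain ⟨f, hf⟩ := (dense_iInter_of_isOpen hopen hdense).nonempty
  refine ⟨f, ⟨‖f‖, happ f⟩, fun t r hr => ?_⟩
  obtain ⟨k, hk⟩ := exists_nat_one_div_lt (show 0 < r / 2 by positivity)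
  obtain ⟨q, hq1, hq2⟩ := exists_rat_btwn (show t < t + r / 2 by linarith)
  obtain ⟨t', r', hr', h1, h2⟩ := Set.mem_iInter.1 hf (q, k)
  refine ⟨t', r', hr', ?_, h2⟩
  have a1 := abs_sub_le t' q t
  have a2 : |(q : ℝ) - t| ≤ r / 2 := by
    rw [abs_le]; constructor <;> linarith
  simp only at h1
  linarith

open scoped Pointwise in
theorem main : ∃ A : Set ℝ, IsCompact A ∧ A - A ∈ nhds (0 : ℝ) ∧
    ¬ (interior (A + A + A + A)).Nonempty := by
  obtain ⟨φ, ⟨C, hC⟩, hφ⟩ := exists_phi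
  let S : Set ℝ := {y | ∃ x ∈ Set.Icc (0 : ℝ) 1, ∃ e : Bool, y = φ x + if e then x else 0}
  refine ⟨closure S, ?_, ?_, ?_⟩
  · apply Bornology.IsBounded.isCompact_closure
    apply (Metric.isBounded_Icc (-C) (C + 1)).subset
    rintro _ ⟨x, hx, e, rfl⟩
    have a1 := abs_le.1 (hC x)
    constructor <;> split_ifs <;> linarith [a1.1, a1.2, hx.1, hx.2]
  · apply Filter.mem_of_superset (Icc_mem_nhds (show (-1 : ℝ) < 0 by norm_num) zero_lt_one)
    intro y hy
    rcases le_total 0 y with h | h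
    · refine ⟨φ y + y, subset_closure ⟨y, ⟨h, hy.2⟩, true, by simp⟩, φ y,
        subset_closure ⟨y, ⟨h, hy.2⟩, false, by simp⟩, by simp⟩
    · have hy' : -y ∈ Set.Icc (0 : ℝ) 1 := ⟨by linarith, by linarith [hy.1]⟩
      refine ⟨φ (-y), subset_closure ⟨-y, hy', false, by simp⟩, φ (-y) + -y,
        subset_closure ⟨-y, hy', true, by simp⟩, by simp⟩
  · rintro ⟨t, ht⟩
    obtain ⟨r, hr, hball⟩ := Metric.isOpen_iff.1 isOpen_interior t ht
    obtain ⟨t', r', hr', h1, h2⟩ := hφ t r hr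
    have ht' : t' ∈ closure S + closure S + closure S + closure S := by
      apply interior_subset
      apply hball
      rw [Metric.mem_ball, Real.dist_eq]
      linarith
    have hcl : ∀ s u : Set ℝ, closure s + closure u ⊆ closure (s + u) := by
      rintro s u _ ⟨a, ha, b, hb, rfl⟩
      exact map_mem_closure₂ continuous_add ha hb (fun a ha b hb => Set.add_mem_add ha hb)
    have h3 : t' ∈ closure (S + S + S + S) :=
      hcl _ _ (Set.add_subset_add_right ((Set.add_subset_add_right (hcl S S)).trans (hcl _ _)) ht')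
    have h4 : S + S + S + S ⊆ {y | r' ≤ |y - t'|} := by
      rintro _ ⟨_, ⟨_, ⟨_, ⟨x0, g0, e0, rfl⟩, _, ⟨x1, g1, e1, rfl⟩, rfl⟩, _, ⟨x2, g2, e2, rfl⟩, rfl⟩,
        _, ⟨x3, g3, e3, rfl⟩, rfl⟩
      have := h2 (![x0, x1, x2, x3], ![e0, e1, e2, e3]) (by
        intro i
        fin_cases i
        · exact g0
        · exact g1
        · exact g2
        · exact g3)
      rw [sm, Fin.sum_univ_four] at this
      exact this
    have h5 : IsClosed {y : ℝ | r' ≤ |y - t'|} := isClosed_le continuous_const (by fun_prop)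
    have h6 := closure_minimal h4 h5 h3
    simp only [Set.mem_ofPred_eq, sub_self, abs_zero] at h6
    linarith

end Pool.Agent.H655Z.Haight
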