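import Pool.Agent.H655Z.Chain

/-! For a suitable diagonal the only vector on a summable two-sided orbit is zero. -/

set_option autoImplicit false

namespace Pool.Agent.H655Z.Chain

open Filter Topology

noncomputable def zeta (N : ℕ) : ℂ := Complex.exp (2 * Real.pi * Complex.I / (N : ℂ))

noncomputable def om (N k : ℕ) : ℂ := Complex.exp Complex.I * zeta N ^ k

theorem zeta_prim {N : ℕ} (hN : N ≠ 0) : IsPrimitiveRoot (zeta N) N :=
  Complex.isPrimitiveRoot_exp N hN

theorem norm_om {N : ℕ} (hN : N ≠ 0) (k : ℕ) : ‖om N k‖ = 1 := by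
  have h1 : ‖Complex.exp Complex.I‖ = 1 := by
    simpa using Complex.norm_exp_ofReal_mul_I 1
  rw [om, norm_mul, norm_pow, h1, (zeta_prim hN).norm'_eq_one hN, one_pow, one_mul]

theorem om_pow_ne {N : ℕ} (hN : N ≠ 0) (k M : ℕ) (hM : 0 < M) : om N k ^ M ≠ 1 := by
  intro h
  have h1 : om N k ^ (M * N) = 1 := by rw [pow_mul, h, one_pow]
  have h2 : (zeta N ^ k) ^ (M * N) = 1 := by
    rw [← pow_mul, ← mul_assoc, mul_comm, pow_mul, (zeta_prim hN).pow_eq_one, one_pow]
  rw [om, mul_pow, h2, mul_one, ← Complex.exp_nat_mul, Complex.exp_eq_one_iff] at h1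
  obtain ⟨n, hn⟩ := h1
  have h3 : ((M * N : ℕ) : ℂ) = n * (2 * Real.pi) := by
    have := mul_right_cancel₀ Complex.I_ne_zero (a := ((M * N : ℕ) : ℂ)) (c := n * (2 * Real.pi))
      (by rw [hn]; ring)
    exact this
  have h4 : ((M * N : ℕ) : ℝ) = n * (2 * Real.pi) := by exact_mod_cast h3
  have h5 : (0 : ℝ) < ((M * N : ℕ) : ℝ) := by
    have : 0 < M * N := Nat.mul_pos hM (Nat.pos_of_ne_zero hN)
    exact_mod_cast this
  have hn0 : n ≠ 0 := by
    rintro rfl
    simp only [Int.cast_zero, zero_mul] at h4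
    linarith
  have h6 : Irrational ((2 * n : ℤ) * Real.pi) := irrational_pi.intCast_mul (by omega)
  apply h6.ne_nat (M * N)
  rw [h4]
  push_cast
  ring

theorem summ {c : ℤ → ℂ} (hc : Summable c) {w : ℂ} (hw : ‖w‖ = 1) :
    Summable (fun n : ℤ => c n * w ^ n) := by
  apply Summable.of_norm
  simp only [norm_mul, norm_zpow, hw, one_zpow, mul_one]
  exact hc.norm

theorem uniq {c : ℤ → ℂ} (hc : Summable c)
    (h : ∀ N k : ℕ, N ≠ 0 → ∑' n : ℤ, c n * om N k ^ n = 0) : c 0 = 0 := by
  classical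
  have h1 : ‖Complex.exp Complex.I‖ = 1 := by
    simpa using Complex.norm_exp_ofReal_mul_I 1
  have key : ∀ N : ℕ, N ≠ 0 →
      ∑' n : ℤ, (if (N : ℤ) ∣ n then c n * Complex.exp Complex.I ^ n else 0) = 0 := by
    intro N hN
    have h2 : HasSum (fun n : ℤ => ∑ k ∈ Finset.range N, c n * om N k ^ n)
        (∑ k ∈ Finset.range N, (0 : ℂ)) := by
      apply hasSum_sum
      intro k _
      have := (summ hc (norm_om hN k)).hasSum
      rwa [h N k hN] at this
    have h3 : ∀ n : ℤ, ∑ k ∈ Finset.range N, c n * om N k ^ n =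
        (N : ℂ) * (if (N : ℤ) ∣ n then c n * Complex.exp Complex.I ^ n else 0) := by
      intro n
      have h4 : ∀ k : ℕ, c n * om N k ^ n =
          c n * Complex.exp Complex.I ^ n * (zeta N ^ n) ^ k := by
        intro k
        rw [om, mul_zpow, ← zpow_natCast, ← zpow_natCast, ← zpow_mul, ← zpow_mul, mul_comm n,
          mul_assoc]
      simp only [h4]
      rw [← Finset.mul_sum]
      split_ifs with hd
      · rw [((zeta_prim hN).zpow_eq_one_iff_dvd n).2 hd]
        simp [mul_comm]
      · have h5 : zeta N ^ n ≠ 1 := fun h => hd (((zeta_prim hN).zpow_eq_one_iff_dvd n).1 h)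
        have h6 : (zeta N ^ n) ^ N = 1 := by
          rw [← zpow_natCast, ← zpow_mul, mul_comm, zpow_mul, zpow_natCast,
            (zeta_prim hN).pow_eq_one, one_zpow]
        rw [geom_sum_eq h5, h6]
        simp
    simp only [h3, Finset.sum_const_zero] at h2
    have h7 := h2.tsum_eq
    rw [tsum_mul_left] at h7
    exact (mul_eq_zero.1 h7).resolve_left (by exact_mod_cast hN)
  have lim : Tendsto (fun N : ℕ =>
      ∑' n : ℤ, (if (N : ℤ) ∣ n then c n * Complex.exp Complex.I ^ n else 0)) atTop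
      (𝓝 (∑' n : ℤ, (if n = 0 then c 0 else 0))) := by
    apply tendsto_tsum_of_dominated_convergence hc.norm
    · intro n
      apply tendsto_const_nhds.congr'
      filter_upwards [eventually_gt_atTop n.natAbs] with N hN
      by_cases hn : n = 0
      · subst hn
        simp
      · rw [if_neg hn, if_neg]
        intro hd
        have := Int.natAbs_le_of_dvd_ne_zero hd hn
        simp only [Int.natAbs_natCast] at this
        omega
    · refine Eventually.of_forall (fun N n => ?_)
      split_ifs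
      · rw [norm_mul, norm_zpow, h1, one_zpow, mul_one]
      · simp
  rw [tsum_ite_eq] at lim
  have lim2 : Tendsto (fun N : ℕ =>
      ∑' n : ℤ, (if (N : ℤ) ∣ n then c n * Complex.exp Complex.I ^ n else 0)) atTop (𝓝 0) := by
    apply tendsto_const_nhds.congr'
    filter_upwards [eventually_gt_atTop 0] with N hN
    exact (key N hN.ne').symm
  exact tendsto_nhds_unique lim lim2

/-- the diagonal -/
noncomputable def mu (i : ℤ) : ℂ :=
  (om ((Nat.unpair (Nat.unpair i.natAbs).1).1 + 1) (Nat.unpair (Nat.unpair i.natAbs).1).2)⁻¹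

theorem mu_pow_ne (i : ℤ) (N : ℕ) (hN : 0 < N) : mu i ^ N ≠ 1 := by
  rw [mu, inv_pow, Ne, inv_eq_one]
  exact om_pow_ne (by omega) _ _ hN

theorem mu_hit (N k : ℕ) (hN : N ≠ 0) (j : ℤ) : ∃ i < j, mu i = (om N k)⁻¹ := by
  refine ⟨-(Nat.pair (Nat.pair (N - 1) k) (j.natAbs + 1) : ℕ), ?_, ?_⟩
  · have := Nat.right_le_pair (Nat.pair (N - 1) k) (j.natAbs + 1)
    omega
  · have e : N - 1 + 1 = N := by omega
    simp only [mu, Int.natAbs_neg, Int.natAbs_natCast, Nat.unpair_pair, e]

theorem orbit_zero (c : ℤ → X) (hs : Summable c) (hc : ∀ n, T mu (c n) = c (n + 1)) :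
    c 0 = 0 := by
  funext j
  have hsi : ∀ i, Summable (fun n => c n i) := fun i => Pi.summable.1 hs i
  apply uniq (hsi j)
  intro N k hN
  set w := om N k with hw
  have hw1 : ‖w‖ = 1 := norm_om hN k
  have hw0 : w ≠ 0 := by
    intro h
    rw [h, norm_zero] at hw1
    exact zero_ne_one hw1
  have hrec : ∀ i, w * ((∑' n : ℤ, c n (i + 1) * w ^ n) + mu i * ∑' n : ℤ, c n i * w ^ n) =
      ∑' n : ℤ, c n i * w ^ n := by
    intro i
    rw [← tsum_mul_left, ← (summ (hsi (i + 1)) hw1).tsum_add ((summ (hsi i) hw1).mul_left _),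
      ← tsum_mul_left, ← (Equiv.addRight (1 : ℤ)).tsum_eq (fun n : ℤ => c n i * w ^ n)]
    apply tsum_congr
    intro n
    simp only [Equiv.coe_addRight]
    rw [← hc n, T_apply, zpow_add_one₀ hw0]
    ring
  obtain ⟨i, hij, hi⟩ := mu_hit N k hN j
  have h0 : ∀ l : ℕ, ∑' n : ℤ, c n (i + 1 + l) * w ^ n = 0 := by
    intro l
    induction l with
    | zero =>
      have := hrec i
      rw [hi, ← hw, mul_add, ← mul_assoc, mul_inv_cancel₀ hw0, one_mul, add_eq_right] at this
      simpa using (mul_eq_zero.1 this).resolve_left hw0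
    | succ l ih =>
      have := hrec (i + 1 + l)
      rw [ih, mul_zero, add_zero] at this
      have e : i + 1 + ((l + 1 : ℕ) : ℤ) = i + 1 + l + 1 := by push_cast; ring
      rw [e]
      exact (mul_eq_zero.1 this).resolve_left hw0
  have := h0 (j - (i + 1)).toNat
  have e : i + 1 + ((j - (i + 1)).toNat : ℤ) = j := by omega
  rwa [e] at this

theorem no_crit (X₀ : Set X) (S : X → X) (hS : ∀ x ∈ X₀, S x ∈ X₀)
    (h : ∀ x ∈ X₀, Summable (fun n : ℕ => (T mu ^ n) x) ∧
      Summable (fun n : ℕ => S^[n] x) ∧ T mu (S x) = x) : X₀ ⊆ {0} := by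
  intro x hx
  have hmem : ∀ n : ℕ, S^[n] x ∈ X₀ := by
    intro n
    induction n with
    | zero => exact hx
    | succ n ih => rw [Function.iterate_succ_apply']; exact hS _ ih
  let c : ℤ → X := fun n => match n with
    | Int.ofNat n => (T mu ^ n) x
    | Int.negSucc n => S^[n + 1] x
  have hs : Summable c := by
    apply Summable.of_nat_of_neg_add_one
    · exact (h x hx).1
    · exact (summable_nat_add_iff 1).2 (h x hx).2.1
  have hc : ∀ n, T mu (c n) = c (n + 1) := by
    intro n
    cases n with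
    | ofNat n =>
      show T mu ((T mu ^ n) x) = (T mu ^ (n + 1)) x
      rw [pow_succ', mul_apply_eq_comp]
    | negSucc n =>
      cases n with
      | zero =>
        show T mu (S^[0 + 1] x) = (T mu ^ 0) x
        simpa using (h x hx).2.2
      | succ n =>
        show T mu (S^[n + 1 + 1] x) = S^[n + 1] x
        rw [Function.iterate_succ_apply' S (n + 1)]
        exact (h _ (hmem (n + 1))).2.2
  have := orbit_zero c hs hc
  exact this

end Pool.Agent.H655Z.Chain
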